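import Mathlib

set_option autoImplicit false

namespace Pool.Agent.R272.LpX

/-- The metric space `M` embeds with bi-Lipschitz distortion `D` into `ℓ_p(X)`: there is a map
`f : M → ℓ_p(X)` with `d(x,y) ≤ ‖f x - f y‖ ≤ D d(x,y)` for all `x, y`. Here `ℓ_p(X)` is the
Mathlib space `lp` of sequences in `X` with finite `ℓ_p` norm `(∑ ‖x_m‖^p)^(1/p)`. -/
def EmbedsLp (p D : ℝ) (M : Type*) [MetricSpace M] (X : Type*) [NormedAddCommGroup X] : Prop :=
  ∃ f : M → lp (fun _ : ℕ => X) (ENNReal.ofReal p), ∀ x y : M,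
    dist x y ≤ ‖f x - f y‖ ∧ ‖f x - f y‖ ≤ D * dist x y

end Pool.Agent.R272.LpX
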