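import Mathlib
import Pool.Agent.R272.LpX.Defs

set_option autoImplicit false

namespace Pool.Agent.R272.LpX

/-- Rows `(i,ε)`, columns `(j,δ)` and padding points. -/
abbrev Pt (r t : ℕ) : Type := (Fin r × Bool) ⊕ ((Fin r × Bool) ⊕ Fin t)

/-- The integer valued distance attached to a sign matrix `σ`. -/
def dN {r t : ℕ} (σ : Fin r → Fin r → Bool) : Pt r t → Pt r t → ℕ
  | Sum.inl a, Sum.inl b => if a.1 = b.1 then (if a.2 = b.2 then 0 else 4) else 2
  | Sum.inr (Sum.inl a), Sum.inr (Sum.inl b) =>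
      if a.1 = b.1 then (if a.2 = b.2 then 0 else 4) else 2
  | Sum.inl a, Sum.inr (Sum.inl b) => if xor a.2 b.2 = σ a.1 b.1 then 1 else 3
  | Sum.inr (Sum.inl b), Sum.inl a => if xor a.2 b.2 = σ a.1 b.1 then 1 else 3
  | Sum.inr (Sum.inr c), Sum.inr (Sum.inr d) => if c = d then 0 else 2
  | Sum.inr (Sum.inr _), _ => 2
  | _, Sum.inr (Sum.inr _) => 2

lemma dN_self {r t : ℕ} (σ : Fin r → Fin r → Bool) (x : Pt r t) : dN σ x x = 0 := by
  rcases x with ⟨i, e⟩ | ⟨i, e⟩ | c <;> simp [dN]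

lemma dN_comm {r t : ℕ} (σ : Fin r → Fin r → Bool) (x y : Pt r t) : dN σ x y = dN σ y x := by
  rcases x with ⟨i, e⟩ | ⟨i, e⟩ | c <;> rcases y with ⟨j, e'⟩ | ⟨j, e'⟩ | d <;>
    simp [dN, eq_comm]

lemma dN_eq {r t : ℕ} (σ : Fin r → Fin r → Bool) (x y : Pt r t) (h : dN σ x y = 0) : x = y := by
  rcases x with ⟨i, e⟩ | ⟨i, e⟩ | c <;> rcases y with ⟨j, e'⟩ | ⟨j, e'⟩ | d <;>
    simp only [dN] at h ⊢ <;> (try split_ifs at h) <;> simp_all

lemma dN_tri {r t : ℕ} (σ : Fin r → Fin r → Bool) (x y z : Pt r t) :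
    dN σ x z ≤ dN σ x y + dN σ y z := by
  rcases x with ⟨i, e⟩ | ⟨i, e⟩ | c <;> rcases y with ⟨j, e'⟩ | ⟨j, e'⟩ | d <;>
    rcases z with ⟨k, e''⟩ | ⟨k, e''⟩ | m <;>
    simp only [dN] <;> split_ifs <;> simp_all <;>
    (cases e <;> cases e' <;> cases e'' <;> simp_all)

/-- The metric space attached to a sign matrix. -/
@[reducible] noncomputable def met {r t : ℕ} (σ : Fin r → Fin r → Bool) :
    MetricSpace (Pt r t) where
  dist x y := (dN σ x y : ℝ)
  dist_self x := by simp [dN_self]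
  dist_comm x y := by rw [dN_comm]
  dist_triangle x y z := by exact_mod_cast dN_tri σ x y z
  eq_of_dist_eq_zero {x y} h := dN_eq σ x y (by exact_mod_cast h)

lemma card_Pt (r t : ℕ) : Fintype.card (Pt r t) = 4 * r + t := by
  simp only [Fintype.card_sum, Fintype.card_prod, Fintype.card_fin, Fintype.card_bool]
  ring

end Pool.Agent.R272.LpX
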