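import Mathlib
import Pool.Agent.R272.LpX.Defs
import Pool.Agent.R272.LpX.Met

set_option autoImplicit false

namespace Pool.Agent.R272.LpX

open Finset

lemma frame {X : Type*} [NormedAddCommGroup X] [NormedSpace ℝ X] [FiniteDimensional ℝ X] {K : ℕ}
    (h : Module.finrank ℝ X ≤ K) : ∃ (e : Fin K → X) (c : Fin K → (X →ₗ[ℝ] ℝ)),
    ∀ x, ∑ t, c t x • e t = x := by
  obtain ⟨m, rfl⟩ := Nat.exists_eq_add_of_le h
  let b := Module.finBasis ℝ X
  refine ⟨Fin.append (fun i => b i) (fun _ => 0), Fin.append (fun i => b.coord i) (fun _ => 0),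
    fun x => ?_⟩
  rw [Fin.sum_univ_add]
  simp only [Fin.append_left, Fin.append_right, LinearMap.zero_apply, smul_zero,
    Finset.sum_const_zero, add_zero]
  exact b.sum_repr x

lemma realize {X : Type*} [NormedAddCommGroup X] [NormedSpace ℝ X] [FiniteDimensional ℝ X] {K r : ℕ}
    (h : Module.finrank ℝ X ≤ K) (φ : Fin r → (X →L[ℝ] ℝ)) (c : Fin r → ℝ) (v : Fin r → X) :
    ∃ U V : Fin r → Fin (K + 1) → ℝ, ∀ i j, ∑ t, U i t * V j t = φ i (v j) - c i := by
  obtain ⟨e, co, hco⟩ := frame h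
  refine ⟨fun i => Fin.snoc (α := fun _ => ℝ) (fun t => φ i (e t)) (-c i),
    fun j => Fin.snoc (α := fun _ => ℝ) (fun t => co t (v j)) 1, fun i j => ?_⟩
  rw [Fin.sum_univ_castSucc]
  simp only [Fin.snoc_castSucc, Fin.snoc_last, mul_one]
  have h1 : φ i (v j) = ∑ t, φ i (e t) * co t (v j) := by
    conv_lhs => rw [← hco (v j)]
    rw [map_sum]
    refine Finset.sum_congr rfl (fun t _ => ?_)
    rw [map_smul, smul_eq_mul, mul_comm]
  rw [h1]
  ring

/-- choice of a coordinate -/
lemma choose_coord {a b c : ℕ → ℝ} {α β γ x y : ℝ} (ha : HasSum a α) (hb : HasSum b β)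
    (hc : HasSum c γ) (h : x * β + y * γ < α) : ∃ m, x * b m + y * c m < a m := by
  by_contra hcon
  push Not at hcon
  have h1 : HasSum (fun m => x * b m + y * c m) (x * β + y * γ) := (hb.mul_left x).add (hc.mul_left y)
  have := hasSum_le hcon ha h1
  linarith

section one

variable {X : Type*} [NormedAddCommGroup X] [NormedSpace ℝ X]

/-- The one coordinate analysis. -/
lemma one_coord {r t : ℕ} (hr : 0 < r) (σ : Fin r → Fin r → Bool) {p D : ℝ} (hp : 1 ≤ p)
    (hD1 : 1 ≤ D) (hD2 : D < 2) (hpD : (2 * D / (D + 2)) ^ p ≤ 1 / 192)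
    (F : Pt r t → X)
    (hF : (4 ^ p / (6 * r * D ^ p)) * (∑ i : Fin r, ∑ j : Fin r, ∑ e : Bool,
        ‖F (Sum.inl (i, e)) - F (Sum.inr (Sum.inl (j, xor e (σ i j))))‖ ^ p) +
      (1 / (3 * D ^ p)) * (∑ j : Fin r,
        ‖F (Sum.inr (Sum.inl (j, true))) - F (Sum.inr (Sum.inl (j, false)))‖ ^ p) <
      ∑ i : Fin r, ‖F (Sum.inl (i, true)) - F (Sum.inl (i, false))‖ ^ p) :
    ∃ (P : Finset (Fin r)) (φ : Fin r → (X →L[ℝ] ℝ)) (c : Fin r → ℝ),
      (1 / 8 * ((2 - D) / (4 * D)) ^ p) * r ≤ P.card ∧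
      ∀ i ∈ P, 16 * (univ.filter (fun j => σ i j ≠
        decide (φ i (F (Sum.inr (Sum.inl (j, true)))) - c i < 0))).card ≤ r := by
  classical
  have hp0 : 0 < p := by linarith
  have hD0 : 0 < D := by linarith
  have hr0 : (0 : ℝ) < r := by exact_mod_cast hr
  have hDp : 0 < D ^ p := Real.rpow_pos_of_pos hD0 p
  have h4p : (0 : ℝ) < 4 ^ p := Real.rpow_pos_of_pos (by norm_num) p
  set E : Fin r → Fin r → Bool → ℝ := fun i j e =>
    ‖F (Sum.inl (i, e)) - F (Sum.inr (Sum.inl (j, xor e (σ i j))))‖ with hE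
  set W : Fin r → ℝ := fun j =>
    ‖F (Sum.inr (Sum.inl (j, true))) - F (Sum.inr (Sum.inl (j, false)))‖ with hW
  set N : Fin r → ℝ := fun i => ‖F (Sum.inl (i, true)) - F (Sum.inl (i, false))‖ with hN
  set κ : ℝ := 4 ^ p / (6 * r * D ^ p) with hκ
  have hκ0 : 0 < κ := by positivity
  have hE0 : ∀ i j e, 0 ≤ E i j e := fun i j e => norm_nonneg _
  have hW0 : ∀ j, 0 ≤ W j := fun j => norm_nonneg _
  have hN0 : ∀ i, 0 ≤ N i := fun i => norm_nonneg _
  have hEp : ∀ i j e, 0 ≤ E i j e ^ p := fun i j e => Real.rpow_nonneg (hE0 i j e) p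
  have hWp : ∀ j, 0 ≤ W j ^ p := fun j => Real.rpow_nonneg (hW0 j) p
  have hNp : ∀ i, 0 ≤ N i ^ p := fun i => Real.rpow_nonneg (hN0 i) p
  set A : ℝ := ∑ i, N i ^ p with hA
  set B : Fin r → ℝ := fun i => ∑ j, ∑ e, E i j e ^ p with hB
  have hB0 : ∀ i, 0 ≤ B i := fun i => Finset.sum_nonneg (fun j _ => Finset.sum_nonneg
    (fun e _ => hEp i j e))
  set C : ℝ := ∑ j, W j ^ p with hC
  have hC0 : 0 ≤ C := Finset.sum_nonneg (fun j _ => hWp j)
  have hmain : κ * (∑ i, B i) + (1 / (3 * D ^ p)) * C < A := hF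
  have hBs0 : 0 ≤ ∑ i, B i := Finset.sum_nonneg (fun i _ => hB0 i)
  have hA0 : 0 < A := lt_of_le_of_lt (by positivity) hmain
  have hB_A : κ * (∑ i, B i) < A := by
    have : 0 ≤ (1 / (3 * D ^ p)) * C := by positivity
    linarith
  have hC_A : (1 / (3 * D ^ p)) * C < A := by
    have : 0 ≤ κ * (∑ i, B i) := by positivity
    linarith
  set P : Finset (Fin r) := univ.filter (fun i => (κ / 2) * B i < N i ^ p) with hP
  have hPsum : A / 2 ≤ ∑ i ∈ P, N i ^ p := by
    have h1 : ∑ i ∈ univ.filter (fun i => ¬ ((κ / 2) * B i < N i ^ p)), N i ^ p ≤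
        (κ / 2) * ∑ i, B i := by
      rw [Finset.mul_sum]
      refine (Finset.sum_le_sum (fun i hi => ?_)).trans
        (Finset.sum_le_sum_of_subset_of_nonneg (Finset.filter_subset _ _)
          (fun i _ _ => by have := hB0 i; positivity))
      simp only [mem_filter, mem_univ, true_and, not_lt] at hi
      exact hi
    have h2 := Finset.sum_filter_add_sum_filter_not univ (fun i => (κ / 2) * B i < N i ^ p)
      (fun i => N i ^ p)
    have h3 : A = ∑ i ∈ P, N i ^ p +
      ∑ i ∈ univ.filter (fun i => ¬ ((κ / 2) * B i < N i ^ p)), N i ^ p := h2.symm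
    linarith
  set ρ : ℝ := (D + 2) / 8 with hρ
  have hρ0 : 0 < ρ := by rw [hρ]; linarith
  have hρ1 : ρ < 1 / 2 := by rw [hρ]; linarith
  -- bad columns
  set bad : Fin r → Finset (Fin r) := fun i =>
    univ.filter (fun j => ∃ e, ρ * N i ≤ E i j e) with hbad
  have hNpos : ∀ i ∈ P, 0 < N i := by
    intro i hi
    simp only [hP, mem_filter, mem_univ, true_and] at hi
    have h1 : 0 < N i ^ p := lt_of_le_of_lt (by have := hB0 i; positivity) hi
    rcases (hN0 i).lt_or_eq with h | h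
    · exact h
    · rw [← h, Real.zero_rpow hp0.ne'] at h1
      exact absurd h1 (lt_irrefl _)
  have hbadcard : ∀ i ∈ P, 16 * (bad i).card ≤ r := by
    intro i hi
    have hNi := hNpos i hi
    have hi' : (κ / 2) * B i < N i ^ p := by
      simpa only [hP, mem_filter, mem_univ, true_and] using hi
    have h1 : ((bad i).card : ℝ) * (ρ * N i) ^ p ≤ B i := by
      rw [← nsmul_eq_mul, ← Finset.sum_const]
      refine (Finset.sum_le_sum (fun j hj => ?_)).trans
        (Finset.sum_le_sum_of_subset_of_nonneg (Finset.subset_univ (bad i))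
          (f := fun j => ∑ e, E i j e ^ p)
          (fun j _ _ => Finset.sum_nonneg (fun e _ => hEp i j e)))
      simp only [hbad, mem_filter, mem_univ, true_and] at hj
      obtain ⟨e, he⟩ := hj
      have h2 : (ρ * N i) ^ p ≤ E i j e ^ p := Real.rpow_le_rpow (by positivity) he hp0.le
      exact h2.trans (Finset.single_le_sum (f := fun e => E i j e ^ p)
        (fun e _ => hEp i j e) (Finset.mem_univ e))
    have h2 : ((bad i).card : ℝ) * (ρ * N i) ^ p * (κ / 2) ≤ N i ^ p := by
      have : ((bad i).card : ℝ) * (ρ * N i) ^ p * (κ / 2) ≤ B i * (κ / 2) := by gcongr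
      linarith
    have hNip : 0 < N i ^ p := Real.rpow_pos_of_pos hNi p
    rw [Real.mul_rpow hρ0.le hNi.le] at h2
    have h3 : ((bad i).card : ℝ) * ρ ^ p * (κ / 2) ≤ 1 := by
      have : (((bad i).card : ℝ) * ρ ^ p * (κ / 2)) * N i ^ p ≤ 1 * N i ^ p := by
        calc (((bad i).card : ℝ) * ρ ^ p * (κ / 2)) * N i ^ p
            = ((bad i).card : ℝ) * (ρ ^ p * N i ^ p) * (κ / 2) := by ring
          _ ≤ N i ^ p := h2
          _ = 1 * N i ^ p := by ring
      exact le_of_mul_le_mul_right this hNip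
    -- ρ^p 4^p / D^p = ((D+2)/(2D))^p ≥ 192
    have hquo : 192 * D ^ p ≤ ρ ^ p * 4 ^ p := by
      have e1 : ρ ^ p * 4 ^ p = ((D + 2) / 2) ^ p := by
        rw [← Real.mul_rpow hρ0.le (by norm_num)]
        congr 1
        rw [hρ]; ring
      have e2 : (2 * D / (D + 2)) ^ p * ((D + 2) / 2) ^ p = D ^ p := by
        rw [← Real.mul_rpow (by positivity) (by positivity)]
        congr 1
        field_simp
      rw [e1, ← e2]
      have h5 : 0 ≤ ((D + 2) / 2) ^ p := by positivity
      nlinarith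
    have h4 : ((bad i).card : ℝ) * 192 ≤ 12 * r := by
      have h6 : ((bad i).card : ℝ) * ρ ^ p * (κ / 2) =
          ((bad i).card : ℝ) * (ρ ^ p * 4 ^ p) / (12 * r * D ^ p) := by
        rw [hκ]; field_simp; ring
      rw [h6, div_le_one (by positivity)] at h3
      have h7 : ((bad i).card : ℝ) * (192 * D ^ p) ≤ ((bad i).card : ℝ) * (ρ ^ p * 4 ^ p) := by
        gcongr
      have h8 : (((bad i).card : ℝ) * 192) * D ^ p ≤ (12 * r) * D ^ p := by linarith
      exact le_of_mul_le_mul_right h8 hDp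
    have h5 : (16 * (bad i).card : ℝ) ≤ r := by linarith
    exact_mod_cast h5
  have hgood : ∀ i j, j ∉ bad i → ∀ e, E i j e < ρ * N i := by
    intro i j hj e
    simp only [hbad, mem_filter, mem_univ, true_and, not_exists, not_le] at hj
    exact hj e
  -- columns are spread
  have hWlow : ∀ i j, j ∉ bad i → (1 - 2 * ρ) * N i ≤ W j := by
    intro i j hj
    have h1 := hgood i j hj true
    have h2 := hgood i j hj false
    have h3 : ‖F (Sum.inr (Sum.inl (j, xor true (σ i j)))) -
        F (Sum.inr (Sum.inl (j, xor false (σ i j))))‖ = W j := by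
      cases hs : σ i j
      · simp [hW]
      · simp [hW, norm_sub_rev]
    have h4 : N i ≤ E i j true + W j + E i j false := by
      rw [← h3]
      have e : F (Sum.inl (i, true)) - F (Sum.inl (i, false)) =
          (F (Sum.inl (i, true)) - F (Sum.inr (Sum.inl (j, xor true (σ i j))))) +
          (F (Sum.inr (Sum.inl (j, xor true (σ i j)))) -
            F (Sum.inr (Sum.inl (j, xor false (σ i j))))) -
          (F (Sum.inl (i, false)) - F (Sum.inr (Sum.inl (j, xor false (σ i j))))) := by abel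
      calc N i = ‖F (Sum.inl (i, true)) - F (Sum.inl (i, false))‖ := rfl
        _ ≤ _ := by
          rw [e]
          refine (norm_sub_le _ _).trans ?_
          gcongr
          exact norm_add_le _ _
    linarith
  have hNup : ∀ i ∈ P, N i ^ p ≤ (16 / 5) * (4 * D / (2 - D)) ^ p * A / r := by
    intro i hi
    have hNi := hNpos i hi
    have h1 : ((univ \ bad i).card : ℝ) * ((1 - 2 * ρ) * N i) ^ p ≤ C := by
      rw [← nsmul_eq_mul, ← Finset.sum_const]
      refine (Finset.sum_le_sum (fun j hj => ?_)).trans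
        (Finset.sum_le_sum_of_subset_of_nonneg (Finset.subset_univ (univ \ bad i))
          (f := fun j => W j ^ p) (fun j _ _ => hWp j))
      simp only [mem_sdiff, mem_univ, true_and] at hj
      exact Real.rpow_le_rpow (by have : 0 ≤ 1 - 2 * ρ := by linarith
                                  positivity) (hWlow i j hj) hp0.le
    have h2 : (15 / 16 : ℝ) * r ≤ ((univ \ bad i).card : ℝ) := by
      rw [Finset.card_sdiff_of_subset (Finset.subset_univ _), Finset.card_univ, Fintype.card_fin]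
      have h3 := hbadcard i hi
      have h4 : (16 * (bad i).card : ℝ) ≤ r := by exact_mod_cast h3
      have h5 : (bad i).card ≤ r := by omega
      rw [Nat.cast_sub h5]
      linarith
    have h3 : 0 < 1 - 2 * ρ := by linarith
    have h4 : (15 / 16 : ℝ) * r * ((1 - 2 * ρ) ^ p * N i ^ p) ≤ C := by
      rw [← Real.mul_rpow h3.le hNi.le]
      refine le_trans ?_ h1
      gcongr
    have h5 : C ≤ 3 * D ^ p * A := by
      have h6 : (1 / (3 * D ^ p)) * C = C / (3 * D ^ p) := by ring
      rw [h6, div_lt_iff₀ (by positivity)] at hC_A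
      linarith
    have h7 : (4 * D / (2 - D)) ^ p * (1 - 2 * ρ) ^ p = D ^ p := by
      rw [← Real.mul_rpow (by have : 0 < 2 - D := by linarith
                              positivity) h3.le]
      congr 1
      have : 2 - D ≠ 0 := by linarith
      rw [hρ]
      field_simp
      ring
    have h8 : 0 < (1 - 2 * ρ) ^ p := Real.rpow_pos_of_pos h3 p
    rw [le_div_iff₀ hr0]
    have h9 : (N i ^ p * r) * (1 - 2 * ρ) ^ p ≤
        ((16 / 5) * (4 * D / (2 - D)) ^ p * A) * (1 - 2 * ρ) ^ p := by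
      calc (N i ^ p * r) * (1 - 2 * ρ) ^ p
          = (16 / 15) * ((15 / 16 : ℝ) * r * ((1 - 2 * ρ) ^ p * N i ^ p)) := by ring
        _ ≤ (16 / 15) * (3 * D ^ p * A) := by linarith
        _ = (16 / 5) * D ^ p * A := by ring
        _ = (16 / 5) * ((4 * D / (2 - D)) ^ p * (1 - 2 * ρ) ^ p) * A := by rw [h7]
        _ = _ := by ring
    exact le_of_mul_le_mul_right h9 h8
  have hPcard : (1 / 8 * ((2 - D) / (4 * D)) ^ p) * r ≤ P.card := by
    have h1 : A / 2 ≤ P.card * ((16 / 5) * (4 * D / (2 - D)) ^ p * A / r) := by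
      refine hPsum.trans ?_
      rw [← nsmul_eq_mul, ← Finset.sum_const]
      exact Finset.sum_le_sum hNup
    have h2 : (4 * D / (2 - D)) ^ p * ((2 - D) / (4 * D)) ^ p = 1 := by
      have h3 : 0 < 2 - D := by linarith
      rw [← Real.mul_rpow (by positivity) (by positivity)]
      have : 4 * D / (2 - D) * ((2 - D) / (4 * D)) = 1 := by field_simp
      rw [this, Real.one_rpow]
    have h3 : 0 < ((2 - D) / (4 * D)) ^ p := by
      have h3 : 0 < 2 - D := by linarith
      positivity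
    have h4 : (1 / 2 : ℝ) * r ≤ P.card * ((16 / 5) * (4 * D / (2 - D)) ^ p) := by
      have h5 : P.card * ((16 / 5) * (4 * D / (2 - D)) ^ p * A / r) =
          (P.card * ((16 / 5) * (4 * D / (2 - D)) ^ p)) * A / r := by ring
      rw [h5, le_div_iff₀ hr0] at h1
      have h6 : ((1 / 2 : ℝ) * r) * A ≤ (P.card * ((16 / 5) * (4 * D / (2 - D)) ^ p)) * A := by
        linarith
      exact le_of_mul_le_mul_right h6 hA0
    have h5 : (1 / 2 : ℝ) * r * ((2 - D) / (4 * D)) ^ p ≤ P.card * (16 / 5) := by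
      calc (1 / 2 : ℝ) * r * ((2 - D) / (4 * D)) ^ p
          ≤ (P.card * ((16 / 5) * (4 * D / (2 - D)) ^ p)) * ((2 - D) / (4 * D)) ^ p := by gcongr
        _ = P.card * (16 / 5) * ((4 * D / (2 - D)) ^ p * ((2 - D) / (4 * D)) ^ p) := by ring
        _ = P.card * (16 / 5) := by rw [h2, mul_one]
    have h6 : 0 ≤ ((2 - D) / (4 * D)) ^ p * r := by positivity
    linarith
  -- functionals
  have hφ : ∀ i, ∃ g : X →L[ℝ] ℝ, ‖g‖ ≤ 1 ∧
      g (F (Sum.inl (i, true)) - F (Sum.inl (i, false))) = N i := by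
    intro i
    obtain ⟨g, hg1, hg2⟩ := exists_dual_vector'' ℝ (F (Sum.inl (i, true)) - F (Sum.inl (i, false)))
    exact ⟨g, hg1, by simpa using hg2⟩
  choose φ hφ1 hφ2 using hφ
  refine ⟨P, φ, fun i => (φ i (F (Sum.inl (i, true))) + φ i (F (Sum.inl (i, false)))) / 2,
    hPcard, fun i hi => ?_⟩
  refine le_trans ?_ (hbadcard i hi)
  refine Nat.mul_le_mul_left _ (Finset.card_le_card ?_)
  intro j hj
  by_contra hjb
  simp only [mem_filter, mem_univ, true_and] at hj
  apply hj
  have hNi := hNpos i hi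
  have hle : ∀ x y : X, |φ i x - φ i y| ≤ ‖x - y‖ := by
    intro x y
    rw [← map_sub]
    calc |φ i (x - y)| ≤ ‖φ i‖ * ‖x - y‖ := (φ i).le_opNorm _
      _ ≤ 1 * ‖x - y‖ := by
        gcongr
        exact hφ1 i
      _ = ‖x - y‖ := one_mul _
  have hN2 := hφ2 i
  rw [map_sub] at hN2
  have hhalf : ρ * N i ≤ 1 / 2 * N i := mul_le_mul_of_nonneg_right hρ1.le hNi.le
  cases hs : σ i j
  · have h1 := hgood i j hjb true
    simp only [hE, hs, Bool.xor_false] at h1
    have h2 := (abs_le.mp (hle (F (Sum.inl (i, true))) (F (Sum.inr (Sum.inl (j, true)))))).2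
    symm
    rw [decide_eq_false_iff_not, not_lt]
    linarith
  · have h1 := hgood i j hjb false
    simp only [hE, hs, Bool.false_xor] at h1
    have h2 := (abs_le.mp (hle (F (Sum.inl (i, false))) (F (Sum.inr (Sum.inl (j, true)))))).1
    symm
    rw [decide_eq_true_iff]
    linarith

end one

end Pool.Agent.R272.LpX
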