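import Mathlib
import Pool.Agent.Helper448.Warren

set_option autoImplicit false

namespace Pool.Agent.R272.LpX

open Finset

/-- The polynomial giving the `(i,j)` entry of the product of an `r × K` and a `K × r` matrix. -/
noncomputable def entry (r K : ℕ) (ij : Fin r × Fin r) :
    MvPolynomial ((Fin r × Fin K) ⊕ (Fin r × Fin K)) ℝ :=
  ∑ t : Fin K, MvPolynomial.X (Sum.inl (ij.1, t)) * MvPolynomial.X (Sum.inr (ij.2, t))

lemma entry_deg (r K : ℕ) (ij : Fin r × Fin r) : (entry r K ij).totalDegree ≤ 2 := by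
  unfold entry
  refine MvPolynomial.totalDegree_finsetSum_le ?_
  intro t _
  refine (MvPolynomial.totalDegree_mul _ _).trans ?_
  simp [MvPolynomial.totalDegree_X]

/-- Sign matrices of products `U Vᵀ` with inner dimension `K`. -/
noncomputable def signs (r K : ℕ) : Finset (Fin r → Fin r → Bool) := by
  classical
  exact univ.filter (fun s => ∃ U V : Fin r → Fin K → ℝ,
    ∀ i j, s i j = decide (∑ t, U i t * V j t < 0))

lemma signs_card (r K : ℕ) : (signs r K).card ≤ (8 * r ^ 2 + 2) ^ (2 * r * K) := by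
  classical
  have h := Pool.Agent.Helper448.Warren.ncard_sign_patterns_le (entry r K) 2 (entry_deg r K)
  have h2 : (4 * Fintype.card (Fin r × Fin r) * 2 + 2) ^
      Fintype.card ((Fin r × Fin K) ⊕ (Fin r × Fin K)) = (8 * r ^ 2 + 2) ^ (2 * r * K) := by
    simp only [Fintype.card_prod, Fintype.card_fin, Fintype.card_sum]
    congr 1 <;> ring
  rw [h2] at h
  refine le_trans ?_ h
  set R := Set.range (fun x : ((Fin r × Fin K) ⊕ (Fin r × Fin K)) → ℝ =>
    fun i => SignType.sign (MvPolynomial.eval x (entry r K i))) with hR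
  have hfin : R.Finite := Set.toFinite _
  rw [Set.ncard_eq_toFinset_card _ hfin]
  have hsub : signs r K ⊆ hfin.toFinset.image (fun (g : Fin r × Fin r → SignType) =>
      (fun (i j : Fin r) => decide (g (i, j) = -1))) := by
    intro s hs
    simp only [signs, mem_filter, mem_univ, true_and] at hs
    obtain ⟨U, V, hUV⟩ := hs
    rw [Finset.mem_image]
    refine ⟨fun ij => SignType.sign (MvPolynomial.eval
      (Sum.elim (fun a : Fin r × Fin K => U a.1 a.2) (fun a : Fin r × Fin K => V a.1 a.2))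
      (entry r K ij)), ?_, ?_⟩
    · rw [Set.Finite.mem_toFinset]
      exact ⟨_, rfl⟩
    · funext i j
      rw [hUV i j]
      simp only [entry, map_sum, map_mul, MvPolynomial.eval_X, Sum.elim_inl, Sum.elim_inr]
      congr 1
      rw [sign_eq_neg_one_iff]
  exact (Finset.card_le_card hsub).trans Finset.card_image_le

lemma ball_card (r : ℕ) (τ : Fin r → Bool) :
    ((univ.filter (fun ρ : Fin r → Bool =>
      16 * (univ.filter (fun j => ρ j ≠ τ j)).card ≤ r)).card : ℝ) ≤ (11 / 8) ^ r := by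
  classical
  set g : Fin r → Bool → ℝ := fun j b => (if b ≠ τ j then (1 / 4 : ℝ) else 1) * (11 / 10) with hg
  have hgpos : ∀ j b, 0 ≤ g j b := by
    intro j b
    simp only [hg]
    split_ifs <;> norm_num
  have h1 : ∀ ρ ∈ univ.filter (fun ρ : Fin r → Bool =>
      16 * (univ.filter (fun j => ρ j ≠ τ j)).card ≤ r), (1 : ℝ) ≤ ∏ j, g j (ρ j) := by
    intro ρ hρ
    simp only [mem_filter, mem_univ, true_and] at hρ
    set k := (univ.filter (fun j => ρ j ≠ τ j)).card with hk
    have h2 : ∏ j, g j (ρ j) = (1 / 4 : ℝ) ^ k * (11 / 10) ^ r := by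
      simp only [hg]
      rw [Finset.prod_mul_distrib, Finset.prod_const, Finset.card_univ, Fintype.card_fin,
        Finset.prod_ite, Finset.prod_const, Finset.prod_const_one, mul_one]
    rw [h2]
    calc (1 : ℝ) ≤ ((1 / 4) * (11 / 10) ^ 16) ^ k := one_le_pow₀ (by norm_num)
      _ = (1 / 4) ^ k * (11 / 10) ^ (16 * k) := by rw [mul_pow, ← pow_mul]
      _ ≤ (1 / 4) ^ k * (11 / 10) ^ r := by
        gcongr
        norm_num
  calc ((univ.filter (fun ρ : Fin r → Bool =>
        16 * (univ.filter (fun j => ρ j ≠ τ j)).card ≤ r)).card : ℝ)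
      = ∑ ρ ∈ univ.filter (fun ρ : Fin r → Bool =>
        16 * (univ.filter (fun j => ρ j ≠ τ j)).card ≤ r), (1 : ℝ) := by simp
    _ ≤ ∑ ρ ∈ univ.filter (fun ρ : Fin r → Bool =>
        16 * (univ.filter (fun j => ρ j ≠ τ j)).card ≤ r), ∏ j, g j (ρ j) :=
        Finset.sum_le_sum h1
    _ ≤ ∑ ρ : Fin r → Bool, ∏ j, g j (ρ j) :=
        Finset.sum_le_sum_of_subset_of_nonneg (Finset.filter_subset _ _)
          (fun ρ _ _ => Finset.prod_nonneg (fun j _ => hgpos j _))
    _ = ∏ j, ∑ b, g j b := by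
        rw [Finset.prod_univ_sum, Fintype.piFinset_univ]
    _ = (11 / 8) ^ r := by
        have : ∀ j, ∑ b, g j b = 11 / 8 := by
          intro j
          simp only [hg, Fintype.sum_bool]
          cases τ j <;> norm_num
        rw [Finset.prod_congr rfl (fun j _ => this j), Finset.prod_const, Finset.card_univ,
          Fintype.card_fin]

lemma count_main (r L : ℕ) (T : Finset (Fin r → Fin r → Bool))
    (h : ∀ σ : Fin r → Fin r → Bool, ∃ τ ∈ T, ∃ P : Finset (Fin r), L ≤ P.card ∧
      ∀ i ∈ P, 16 * (univ.filter (fun j => σ i j ≠ τ i j)).card ≤ r) :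
    ((16 / 11 : ℝ)) ^ (r * L) ≤ T.card * 2 ^ r := by
  classical
  set B : (Fin r → Fin r → Bool) → Finset (Fin r) → Finset (Fin r → Fin r → Bool) :=
    fun τ P => Fintype.piFinset (fun i => if i ∈ P then univ.filter (fun ρ : Fin r → Bool =>
      16 * (univ.filter (fun j => ρ j ≠ τ i j)).card ≤ r) else univ) with hB
  have hBcard : ∀ τ P, L ≤ P.card → ((B τ P).card : ℝ) ≤ 2 ^ (r * r) * (11 / 16) ^ (r * L) := by
    intro τ P hP
    simp only [hB, Fintype.card_piFinset, Nat.cast_prod]
    have h1 : ∀ i, (((if i ∈ P then univ.filter (fun ρ : Fin r → Bool =>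
        16 * (univ.filter (fun j => ρ j ≠ τ i j)).card ≤ r) else univ).card : ℕ) : ℝ) ≤
        (if i ∈ P then (11 / 8 : ℝ) ^ r else 2 ^ r) := by
      intro i
      split_ifs with hi
      · exact ball_card r (τ i)
      · simp
    refine (Finset.prod_le_prod (fun i _ => by positivity) (fun i _ => h1 i)).trans ?_
    rw [Finset.prod_ite, Finset.prod_const, Finset.prod_const]
    have e1 : (univ.filter (fun i => i ∈ P)).card = P.card := by simp
    have e2 : (univ.filter (fun i => i ∉ P)).card = r - P.card := by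
      rw [Finset.filter_not, Finset.card_sdiff_of_subset (Finset.filter_subset _ _)]
      simp
    rw [e1, e2]
    have hPr : P.card ≤ r := by
      simpa using Finset.card_le_univ P
    have e3 : ((11 / 8 : ℝ) ^ r) ^ P.card * (2 ^ r) ^ (r - P.card) =
        2 ^ (r * r) * (11 / 16) ^ (r * P.card) := by
      have : (11 / 8 : ℝ) = 2 * (11 / 16) := by norm_num
      rw [this, mul_pow, mul_pow, ← pow_mul, ← pow_mul, ← pow_mul]
      have e4 : r * r = r * P.card + r * (r - P.card) := by
        rw [← mul_add]; congr 1; omega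
      rw [e4, pow_add]
      ring
    rw [e3]
    have : (11 / 16 : ℝ) ^ (r * P.card) ≤ (11 / 16) ^ (r * L) :=
      pow_le_pow_of_le_one (by norm_num) (by norm_num) (Nat.mul_le_mul_left _ hP)
    gcongr
  have hcover : (univ : Finset (Fin r → Fin r → Bool)) ⊆
      (T ×ˢ (univ.filter (fun P : Finset (Fin r) => L ≤ P.card))).biUnion
        (fun q => B q.1 q.2) := by
    intro σ _
    obtain ⟨τ, hτ, P, hP, hbad⟩ := h σ
    rw [Finset.mem_biUnion]
    refine ⟨(τ, P), by simp [hτ, hP], ?_⟩
    simp only [hB, Fintype.mem_piFinset]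
    intro i
    split_ifs with hi
    · simpa using hbad i hi
    · simp
  have h2 : ((univ : Finset (Fin r → Fin r → Bool)).card : ℝ) ≤
      (T.card * 2 ^ r) * (2 ^ (r * r) * (11 / 16) ^ (r * L)) := by
    have h3 := (Finset.card_le_card hcover).trans Finset.card_biUnion_le
    have h4 : ((univ : Finset (Fin r → Fin r → Bool)).card : ℝ) ≤
        ∑ q ∈ (T ×ˢ (univ.filter (fun P : Finset (Fin r) => L ≤ P.card))),
          ((B q.1 q.2).card : ℝ) := by
      exact_mod_cast h3
    refine h4.trans ?_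
    have h5 : ∑ q ∈ (T ×ˢ (univ.filter (fun P : Finset (Fin r) => L ≤ P.card))),
          ((B q.1 q.2).card : ℝ) ≤
        ∑ q ∈ (T ×ˢ (univ.filter (fun P : Finset (Fin r) => L ≤ P.card))),
          (2 ^ (r * r) * (11 / 16 : ℝ) ^ (r * L)) := by
      apply Finset.sum_le_sum
      intro q hq
      rw [Finset.mem_product] at hq
      exact hBcard _ _ (by simpa using hq.2)
    refine h5.trans ?_
    rw [Finset.sum_const, nsmul_eq_mul, Finset.card_product]
    have h6 : (univ.filter (fun P : Finset (Fin r) => L ≤ P.card)).card ≤ 2 ^ r := by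
      refine (Finset.card_le_univ _).trans ?_
      simp
    have h7 : ((univ.filter (fun P : Finset (Fin r) => L ≤ P.card)).card : ℝ) ≤ 2 ^ r := by
      exact_mod_cast h6
    push_cast
    gcongr
  have h8 : ((univ : Finset (Fin r → Fin r → Bool)).card : ℝ) = 2 ^ (r * r) := by
    simp [Finset.card_univ, ← pow_mul]
  rw [h8] at h2
  have h9 : (1 : ℝ) ≤ (T.card * 2 ^ r) * (11 / 16) ^ (r * L) := by
    have h10 : (2 : ℝ) ^ (r * r) * 1 ≤
        2 ^ (r * r) * ((T.card * 2 ^ r) * (11 / 16) ^ (r * L)) := by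
      calc (2 : ℝ) ^ (r * r) * 1 = 2 ^ (r * r) := by ring
        _ ≤ _ := h2
        _ = _ := by ring
    exact le_of_mul_le_mul_left h10 (by positivity)
  have h11 : (16 / 11 : ℝ) ^ (r * L) * (11 / 16) ^ (r * L) = 1 := by
    rw [← mul_pow]; norm_num
  have h12 : (0 : ℝ) < (16 / 11 : ℝ) ^ (r * L) := by positivity
  calc (16 / 11 : ℝ) ^ (r * L) = (16 / 11) ^ (r * L) * 1 := by ring
    _ ≤ (16 / 11) ^ (r * L) * ((T.card * 2 ^ r) * (11 / 16) ^ (r * L)) := by gcongr
    _ = (T.card * 2 ^ r) * ((16 / 11 : ℝ) ^ (r * L) * (11 / 16) ^ (r * L)) := by ring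
    _ = T.card * 2 ^ r := by rw [h11, mul_one]

end Pool.Agent.R272.LpX
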