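import Mathlib
import Pool.Agent.R272.LpX.Defs
import Pool.Agent.R272.LpX.Met
import Pool.Agent.R272.LpX.Ana
import Pool.Agent.R272.LpX.Count

set_option autoImplicit false

namespace Pool.Agent.R272.LpX

open Finset

universe u

lemma hasSum_coord {X : Type*} [NormedAddCommGroup X] {p : ℝ} (hp : 1 ≤ p)
    (g h : lp (fun _ : ℕ => X) (ENNReal.ofReal p)) :
    HasSum (fun m => ‖(g : ℕ → X) m - (h : ℕ → X) m‖ ^ p) (‖g - h‖ ^ p) := by
  have hp0 : 0 ≤ p := by linarith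
  have e : (ENNReal.ofReal p).toReal = p := ENNReal.toReal_ofReal hp0
  have h1 := lp.hasSum_norm (p := ENNReal.ofReal p) (by rw [e]; linarith) (g - h)
  rw [e] at h1
  simpa using h1

lemma key {X : Type*} [NormedAddCommGroup X] [NormedSpace ℝ X] [FiniteDimensional ℝ X]
    {r t K : ℕ} (hr : 0 < r) (σ : Fin r → Fin r → Bool) {p D : ℝ} (hp : 1 ≤ p)
    (hD1 : 1 ≤ D) (hD2 : D < 2) (hpD : (2 * D / (D + 2)) ^ p ≤ 1 / 192)
    (hK : Module.finrank ℝ X ≤ K)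
    (hX : @EmbedsLp p D (Pt r t) (met σ) X _) :
    ∃ τ ∈ signs r (K + 1), ∃ P : Finset (Fin r),
      ⌈(1 / 8 * ((2 - D) / (4 * D)) ^ p) * r⌉₊ ≤ P.card ∧
      ∀ i ∈ P, 16 * (univ.filter (fun j => σ i j ≠ τ i j)).card ≤ r := by
  classical
  let _ := met (t := t) σ
  have hp0 : 0 < p := by linarith
  have hD0 : 0 < D := by linarith
  have hr0 : (0 : ℝ) < r := by exact_mod_cast hr
  have hDp : 0 < D ^ p := Real.rpow_pos_of_pos hD0 p
  have h4p : (0 : ℝ) < 4 ^ p := Real.rpow_pos_of_pos (by norm_num) p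
  obtain ⟨f, hf⟩ := hX
  have hdist : ∀ x y : Pt r t, dist x y = (dN σ x y : ℝ) := fun x y => rfl
  have hlow : ∀ x y : Pt r t, (dN σ x y : ℝ) ^ p ≤ ‖f x - f y‖ ^ p := by
    intro x y
    have h := (hf x y).1
    rw [hdist] at h
    exact Real.rpow_le_rpow (by positivity) h hp0.le
  have hup : ∀ x y : Pt r t, ‖f x - f y‖ ^ p ≤ D ^ p * (dN σ x y : ℝ) ^ p := by
    intro x y
    have h := (hf x y).2
    rw [hdist] at h
    rw [← Real.mul_rpow hD0.le (by positivity)]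
    exact Real.rpow_le_rpow (lp.norm_nonneg' _) h hp0.le
  have ha : HasSum (fun m => ∑ i : Fin r, ‖(f (Sum.inl (i, true)) : ℕ → X) m -
      (f (Sum.inl (i, false)) : ℕ → X) m‖ ^ p)
      (∑ i : Fin r, ‖f (Sum.inl (i, true)) - f (Sum.inl (i, false))‖ ^ p) :=
    hasSum_sum (fun i _ => hasSum_coord hp _ _)
  have hb : HasSum (fun m => ∑ i : Fin r, ∑ j : Fin r, ∑ e : Bool,
      ‖(f (Sum.inl (i, e)) : ℕ → X) m -
        (f (Sum.inr (Sum.inl (j, xor e (σ i j)))) : ℕ → X) m‖ ^ p)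
      (∑ i : Fin r, ∑ j : Fin r, ∑ e : Bool,
        ‖f (Sum.inl (i, e)) - f (Sum.inr (Sum.inl (j, xor e (σ i j))))‖ ^ p) :=
    hasSum_sum (fun i _ => hasSum_sum (fun j _ => hasSum_sum (fun e _ => hasSum_coord hp _ _)))
  have hc : HasSum (fun m => ∑ j : Fin r, ‖(f (Sum.inr (Sum.inl (j, true))) : ℕ → X) m -
      (f (Sum.inr (Sum.inl (j, false))) : ℕ → X) m‖ ^ p)
      (∑ j : Fin r, ‖f (Sum.inr (Sum.inl (j, true))) - f (Sum.inr (Sum.inl (j, false)))‖ ^ p) :=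
    hasSum_sum (fun i _ => hasSum_coord hp _ _)
  have ha1 : (r : ℝ) * 4 ^ p ≤
      ∑ i : Fin r, ‖f (Sum.inl (i, true)) - f (Sum.inl (i, false))‖ ^ p := by
    have h1 : ∑ i : Fin r, (4 : ℝ) ^ p = r * 4 ^ p := by simp
    rw [← h1]
    refine Finset.sum_le_sum (fun i _ => ?_)
    have h2 := hlow (Sum.inl (i, true)) (Sum.inl (i, false))
    simpa [dN] using h2
  have hb1 : ∑ i : Fin r, ∑ j : Fin r, ∑ e : Bool,
        ‖f (Sum.inl (i, e)) - f (Sum.inr (Sum.inl (j, xor e (σ i j))))‖ ^ p ≤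
        r * (r * (2 * D ^ p)) := by
    have h1 : ∑ i : Fin r, ∑ j : Fin r, ∑ e : Bool, D ^ p = r * (r * (2 * D ^ p)) := by
      simp
    rw [← h1]
    refine Finset.sum_le_sum (fun i _ => Finset.sum_le_sum (fun j _ =>
      Finset.sum_le_sum (fun e _ => ?_)))
    have h2 := hup (Sum.inl (i, e)) (Sum.inr (Sum.inl (j, xor e (σ i j))))
    have h3 : dN σ (Sum.inl (i, e) : Pt r t) (Sum.inr (Sum.inl (j, xor e (σ i j)))) = 1 := by
      simp only [dN]
      rw [if_pos]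
      cases e <;> cases σ i j <;> rfl
    rw [h3] at h2
    simpa using h2
  have hc1 : ∑ j : Fin r, ‖f (Sum.inr (Sum.inl (j, true))) -
      f (Sum.inr (Sum.inl (j, false)))‖ ^ p ≤ r * (D ^ p * 4 ^ p) := by
    have h1 : ∑ i : Fin r, (D ^ p * (4 : ℝ) ^ p) = r * (D ^ p * 4 ^ p) := by simp
    rw [← h1]
    refine Finset.sum_le_sum (fun i _ => ?_)
    have h2 := hup (Sum.inr (Sum.inl (i, true))) (Sum.inr (Sum.inl (i, false)))
    simpa [dN] using h2
  have hκ : (4 ^ p / (6 * r * D ^ p)) * (∑ i : Fin r, ∑ j : Fin r, ∑ e : Bool,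
        ‖f (Sum.inl (i, e)) - f (Sum.inr (Sum.inl (j, xor e (σ i j))))‖ ^ p) +
      (1 / (3 * D ^ p)) * (∑ j : Fin r, ‖f (Sum.inr (Sum.inl (j, true))) -
        f (Sum.inr (Sum.inl (j, false)))‖ ^ p) <
      ∑ i : Fin r, ‖f (Sum.inl (i, true)) - f (Sum.inl (i, false))‖ ^ p := by
    refine lt_of_lt_of_le ?_ ha1
    have e1 : (4 ^ p / (6 * r * D ^ p)) * (r * (r * (2 * D ^ p))) = r * 4 ^ p / 3 := by
      field_simp
      norm_num
    have e2 : (1 / (3 * D ^ p)) * (r * (D ^ p * 4 ^ p)) = r * 4 ^ p / 3 := by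
      field_simp
    have h1 : (4 ^ p / (6 * r * D ^ p)) * (∑ i : Fin r, ∑ j : Fin r, ∑ e : Bool,
        ‖f (Sum.inl (i, e)) - f (Sum.inr (Sum.inl (j, xor e (σ i j))))‖ ^ p) ≤
        r * 4 ^ p / 3 := by
      rw [← e1]; gcongr
    have h2 : (1 / (3 * D ^ p)) * (∑ j : Fin r, ‖f (Sum.inr (Sum.inl (j, true))) -
        f (Sum.inr (Sum.inl (j, false)))‖ ^ p) ≤ r * 4 ^ p / 3 := by
      rw [← e2]; gcongr
    have h3 : 0 < (r : ℝ) * 4 ^ p := by positivity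
    linarith
  obtain ⟨m, hm⟩ := choose_coord ha hb hc hκ
  obtain ⟨P, φ, c, hP, hbad⟩ := one_coord (X := X) hr σ hp hD1 hD2 hpD
    (fun x => (f x : ℕ → X) m) hm
  obtain ⟨U, V, hUV⟩ := realize hK φ c (fun j => (f (Sum.inr (Sum.inl (j, true))) : ℕ → X) m)
  refine ⟨fun i j => decide (φ i ((f (Sum.inr (Sum.inl (j, true))) : ℕ → X) m) - c i < 0), ?_,
    P, Nat.ceil_le.mpr hP, hbad⟩
  simp only [signs, mem_filter, mem_univ, true_and]
  exact ⟨U, V, fun i j => by rw [hUV i j]⟩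

/-- If all the spaces embed with dimension at most `K` then `K` is large. -/
lemma final_count {r K : ℕ} (hr : 0 < r) {ε : ℝ} (hε : 0 < ε)
    (h : ∀ σ : Fin r → Fin r → Bool, ∃ τ ∈ signs r (K + 1), ∃ P : Finset (Fin r),
      ⌈ε * r⌉₊ ≤ P.card ∧ ∀ i ∈ P, 16 * (univ.filter (fun j => σ i j ≠ τ i j)).card ≤ r) :
    5 / 16 * (ε * r) ≤ 2 * (K + 1) * Real.log (8 * r ^ 2 + 2) + Real.log 2 := by
  have h1 := count_main r _ _ h
  have hr0 : (0 : ℝ) < r := by exact_mod_cast hr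
  have h2 : ((signs r (K + 1)).card : ℝ) ≤ (8 * (r : ℝ) ^ 2 + 2) ^ (2 * r * (K + 1)) := by
    exact_mod_cast signs_card r (K + 1)
  have h3 : (16 / 11 : ℝ) ^ (r * ⌈ε * r⌉₊) ≤
      (8 * (r : ℝ) ^ 2 + 2) ^ (2 * r * (K + 1)) * 2 ^ r := by
    refine h1.trans ?_
    gcongr
  have h4 := Real.log_le_log (by positivity) h3
  rw [Real.log_mul (by positivity) (by positivity), Real.log_pow, Real.log_pow, Real.log_pow] at h4
  push_cast at h4
  have h5 : (5 / 16 : ℝ) ≤ Real.log (16 / 11) := by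
    have := Real.one_sub_inv_le_log_of_pos (show (0 : ℝ) < 16 / 11 by norm_num)
    refine le_trans ?_ this
    norm_num
  have h6 : ε * r ≤ (⌈ε * r⌉₊ : ℝ) := Nat.le_ceil _
  have h7 : (r : ℝ) * (5 / 16 * (ε * r)) ≤ r * (⌈ε * r⌉₊ : ℝ) * Real.log (16 / 11) := by
    calc (r : ℝ) * (5 / 16 * (ε * r)) = r * (ε * r) * (5 / 16) := by ring
      _ ≤ _ := by gcongr
  have h8 : (r : ℝ) * (5 / 16 * (ε * r)) ≤
      r * (2 * (K + 1) * Real.log (8 * r ^ 2 + 2) + Real.log 2) := by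
    refine h7.trans (h4.trans (le_of_eq ?_))
    ring
  exact le_of_mul_le_mul_left h8 hr0

theorem lower (D : ℝ) (hD1 : 1 ≤ D) (hD2 : D < 2) :
    ∃ p₀ : ℝ, 1 ≤ p₀ ∧ ∀ p : ℝ, p₀ ≤ p → ∃ c : ℝ, 0 < c ∧ ∃ n₀ : ℕ, ∀ n : ℕ, n₀ ≤ n →
      ∃ (M : Type) (_ : Fintype M) (_ : MetricSpace M), Fintype.card M = n ∧
        ∀ (X : Type u) [NormedAddCommGroup X] [NormedSpace ℝ X] [FiniteDimensional ℝ X],
          EmbedsLp p D M X → c * n / Real.log n ≤ Module.finrank ℝ X := by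
  have hθ0 : 0 ≤ 2 * D / (D + 2) := by positivity
  have hθ1 : 2 * D / (D + 2) < 1 := by
    rw [div_lt_one (by linarith)]; linarith
  obtain ⟨N, hN⟩ := exists_pow_lt_of_lt_one (show (0 : ℝ) < 1 / 192 by norm_num) hθ1
  refine ⟨max 1 N, le_max_left _ _, fun p hp => ?_⟩
  have hp1 : 1 ≤ p := (le_max_left _ _).trans hp
  have hpN : (N : ℝ) ≤ p := (le_max_right _ _).trans hp
  have hpD : (2 * D / (D + 2)) ^ p ≤ 1 / 192 := by
    refine le_trans ?_ hN.le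
    rw [← Real.rpow_natCast]
    exact Real.rpow_le_rpow_of_exponent_ge (by positivity) hθ1.le hpN
  set ε : ℝ := 1 / 8 * ((2 - D) / (4 * D)) ^ p with hε
  have hε0 : 0 < ε := by
    have : 0 < (2 - D) / (4 * D) := by
      apply div_pos <;> linarith
    positivity
  refine ⟨ε / 200, by positivity, ?_⟩
  have hlog : ∀ᶠ n : ℕ in Filter.atTop, 4 * Real.log n + 1 < ε * n / 100 := by
    have h1 : (fun x : ℝ => Real.log x) =o[Filter.atTop] (fun x : ℝ => x) :=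
      Real.isLittleO_log_id_atTop
    have h2 := (h1.comp_tendsto tendsto_natCast_atTop_atTop).def
      (show (0 : ℝ) < ε / 1000 by positivity)
    have h3 := (tendsto_natCast_atTop_atTop (R := ℝ)).eventually_gt_atTop (1000 / ε)
    filter_upwards [h2, h3] with n hn1 hn2
    simp only [Function.comp, Real.norm_eq_abs] at hn1
    have h4 : Real.log n ≤ ε / 1000 * n := by
      refine (le_abs_self _).trans (hn1.trans ?_)
      rw [abs_of_nonneg (by positivity)]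
    have h5 : 1000 < n * ε := by rwa [div_lt_iff₀ hε0] at hn2
    nlinarith
  obtain ⟨n₁, hn₁⟩ := Filter.eventually_atTop.mp hlog
  refine ⟨max n₁ 8, fun n hn => ?_⟩
  have hn1 : n₁ ≤ n := (le_max_left _ _).trans hn
  have hn8 : 8 ≤ n := (le_max_right _ _).trans hn
  have hlogn := hn₁ n hn1
  by_contra hcon
  push Not at hcon
  set r := n / 4 with hr
  set t := n - 4 * r with ht
  have hr1 : 0 < r := by omega
  have hcard : ∀ σ : Fin r → Fin r → Bool, Fintype.card (Pt r t) = n := by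
    intro σ
    rw [card_Pt]
    omega
  have hn8' : (8 : ℝ) ≤ n := by exact_mod_cast hn8
  have hlogpos : 0 < Real.log n := Real.log_pos (by linarith)
  set K := ⌊ε / 200 * n / Real.log n⌋₊ with hKdef
  have h : ∀ σ : Fin r → Fin r → Bool, ∃ τ ∈ signs r (K + 1), ∃ P : Finset (Fin r),
      ⌈ε * r⌉₊ ≤ P.card ∧ ∀ i ∈ P, 16 * (univ.filter (fun j => σ i j ≠ τ i j)).card ≤ r := by
    intro σ
    obtain ⟨X, i1, i2, i3, hX, hfin⟩ := hcon (Pt r t) inferInstance (met σ) (hcard σ)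
    have hK : Module.finrank ℝ X ≤ K := Nat.le_floor hfin.le
    exact key (X := X) hr1 σ hp1 hD1 hD2 hpD hK hX
  have h1 := final_count hr1 hε0 h
  have hrn : (r : ℝ) ≤ n / 4 := by
    have : 4 * r ≤ n := by omega
    have h2 : (4 * r : ℝ) ≤ n := by exact_mod_cast this
    linarith
  have hrn2 : (n : ℝ) / 8 ≤ r := by
    have : n ≤ 8 * r := by omega
    have h2 : (n : ℝ) ≤ 8 * r := by exact_mod_cast this
    linarith
  have h2 : Real.log (8 * (r : ℝ) ^ 2 + 2) ≤ 2 * Real.log n := by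
    have h2' : 2 * Real.log n = Real.log ((n : ℝ) ^ 2) := by
      rw [Real.log_pow]; norm_num
    rw [h2']
    apply Real.log_le_log (by positivity)
    have h3 : (r : ℝ) ^ 2 ≤ (n / 4) ^ 2 := by gcongr
    nlinarith
  have h3 : (K : ℝ) ≤ ε / 200 * n / Real.log n := Nat.floor_le (by positivity)
  have h4 : (K : ℝ) * Real.log n ≤ ε / 200 * n := by
    rwa [le_div_iff₀ hlogpos] at h3
  have h5 : 2 * ((K : ℝ) + 1) * Real.log (8 * (r : ℝ) ^ 2 + 2) ≤
      2 * ((K : ℝ) + 1) * (2 * Real.log n) := by gcongr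
  have h6 : Real.log 2 ≤ 1 := by
    have := Real.log_two_lt_d9
    linarith
  have h7 : 5 / 16 * (ε * (n / 8)) ≤ 5 / 16 * (ε * r) := by gcongr
  nlinarith

theorem negated (C : ℝ) (hC : 1 ≤ C) : ∃ p D : ℝ, 1 ≤ p ∧ 1 ≤ D ∧ ∃ n₀ : ℕ, ∀ n : ℕ, n₀ ≤ n →
      ∃ (M : Type) (_ : Fintype M) (_ : MetricSpace M), Fintype.card M = n ∧
        ∀ (X : Type u) [NormedAddCommGroup X] [NormedSpace ℝ X] [FiniteDimensional ℝ X],
          (Module.finrank ℝ X : ℝ) ≤ (n : ℝ) ^ (C / (p * D)) → ¬ EmbedsLp p D M X := by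
  obtain ⟨p₀, hp₀, h⟩ := lower.{u} (3 / 2) (by norm_num) (by norm_num)
  set p := max p₀ (2 * C) with hp
  have hp1 : p₀ ≤ p := le_max_left _ _
  have hp2 : 2 * C ≤ p := le_max_right _ _
  have hp0 : 0 < p := by linarith
  obtain ⟨c, hc, n₁, hn₁⟩ := h p hp1
  refine ⟨p, 3 / 2, by linarith, by norm_num, ?_⟩
  have hlog : ∀ᶠ n : ℕ in Filter.atTop, (n : ℝ) ^ ((1 : ℝ) / 2) < c * n / Real.log n := by
    have h1 : (fun x : ℝ => Real.log x) =o[Filter.atTop] (fun x : ℝ => x ^ ((1 : ℝ) / 2)) :=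
      isLittleO_log_rpow_atTop (by norm_num)
    have h2 := (h1.comp_tendsto tendsto_natCast_atTop_atTop).def
      (show (0 : ℝ) < c / 2 by positivity)
    have h3 := Filter.eventually_gt_atTop (2 : ℕ)
    filter_upwards [h2, h3] with n hn1 hn2
    simp only [Function.comp, Real.norm_eq_abs] at hn1
    have hn2' : (2 : ℝ) < n := by exact_mod_cast hn2
    have hlogpos : 0 < Real.log n := Real.log_pos (by linarith)
    have hroot : 0 < (n : ℝ) ^ ((1 : ℝ) / 2) := by positivity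
    rw [abs_of_pos hlogpos, abs_of_pos hroot] at hn1
    rw [lt_div_iff₀ hlogpos]
    have h4 : (n : ℝ) ^ ((1 : ℝ) / 2) * (n : ℝ) ^ ((1 : ℝ) / 2) = n := by
      rw [← Real.rpow_add (by linarith)]
      norm_num
    calc (n : ℝ) ^ ((1 : ℝ) / 2) * Real.log n
        ≤ (n : ℝ) ^ ((1 : ℝ) / 2) * (c / 2 * (n : ℝ) ^ ((1 : ℝ) / 2)) := by gcongr
      _ = c / 2 * ((n : ℝ) ^ ((1 : ℝ) / 2) * (n : ℝ) ^ ((1 : ℝ) / 2)) := by ring
      _ = c / 2 * n := by rw [h4]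
      _ < c * n := by nlinarith
  obtain ⟨n₂, hn₂⟩ := Filter.eventually_atTop.mp hlog
  refine ⟨max (max n₁ n₂) 1, fun n hn => ?_⟩
  have hn1 : n₁ ≤ n := ((le_max_left _ _).trans (le_max_left _ _)).trans hn
  have hn2 : n₂ ≤ n := ((le_max_right _ _).trans (le_max_left _ _)).trans hn
  have hn3 : 1 ≤ n := (le_max_right _ _).trans hn
  obtain ⟨M, i1, i2, hcard, hM⟩ := hn₁ n hn1
  refine ⟨M, i1, i2, hcard, ?_⟩
  intro X j1 j2 j3 hfin hemb
  have h1 := hM X hemb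
  have h2 := hn₂ n hn2
  have hn3' : (1 : ℝ) ≤ n := by exact_mod_cast hn3
  have h3 : (n : ℝ) ^ (C / (p * (3 / 2))) ≤ (n : ℝ) ^ ((1 : ℝ) / 2) := by
    apply Real.rpow_le_rpow_of_exponent_le hn3'
    rw [div_le_iff₀ (by positivity)]
    linarith
  linarith

end Pool.Agent.R272.LpX
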